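import Pool.Agent.Y784.PP.Main

set_option autoImplicit false
set_option linter.unusedSectionVars false

/-! The choice of the parameters. -/

namespace Pool.Agent.Y784.PP

open Finset Pool.Agent.H365PP

theorem arith_big {s d : ℕ} (hs : 5 ≤ s) (h : 15 * s ≤ 6 * d + 34) :
    (s + d + 1) * (s + d) < (d + 1) * (d + 4) + d * (d + 3) := by
  zify at hs h ⊢
  set a : ℤ := (s : ℤ) with ha
  set b : ℤ := (d : ℤ) with hb
  obtain ⟨u, hu⟩ : ∃ u : ℤ, u = 6 * b + 34 - 15 * a := ⟨_, rfl⟩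
  have hu0 : 0 ≤ u := by linarith
  have h1 : 0 ≤ u * (18 * a - 26) := mul_nonneg hu0 (by linarith)
  have h2 : 0 ≤ (a - 5) * (9 * a + 27) := mul_nonneg (by linarith) (by linarith)
  have h3 : 0 ≤ u * u := mul_self_nonneg u
  have key : 36 * (((b + 1) * (b + 4) + b * (b + 3)) - (a + b + 1) * (a + b)) =
      (a - 5) * (9 * a + 27) + 7 + u * (18 * a - 26) + u * u := by
    rw [hu]; ring
  linarith

theorem arith {n : ℕ} (hn : 45 ≤ n) : ∃ m s d : ℕ, m = s + d + 1 ∧ 6 * m + 3 ≤ n ∧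
    m * (s + d) < (d + 1) * (d + 4) + d * (d + 3) ∧ n ≤ 21 * s := by
  rcases Nat.lt_or_ge n 64 with h1 | h1
  · obtain ⟨d, hd⟩ : ∃ d, 7 = 3 + d + 1 := ⟨3, rfl⟩
    exact ⟨7, 3, 3, rfl, by omega, by norm_num, by omega⟩
  rcases Nat.lt_or_ge n 85 with h2 | h2
  · exact ⟨10, 4, 5, rfl, by omega, by norm_num, by omega⟩
  · obtain ⟨s, hs⟩ : ∃ s, s = (n + 20) / 21 := ⟨_, rfl⟩
    obtain ⟨m, hm⟩ : ∃ m, m = (n - 3) / 6 := ⟨_, rfl⟩
    have hs5 : 5 ≤ s := by omega
    obtain ⟨d, hd⟩ : ∃ d, m = s + d + 1 := ⟨m - s - 1, by omega⟩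
    refine ⟨m, s, d, hd, by omega, ?_, by omega⟩
    rw [hd]
    exact arith_big hs5 (by omega)

theorem main26 (n : ℕ) (p : Fin n → ℝ × ℝ) (hinj : Function.Injective p)
    (hcol : ∀ i j l : Fin n, i ≠ j → j ≠ l → i ≠ l →
      ¬ Collinear ℝ ({p i, p j, p l} : Set (ℝ × ℝ))) :
    ∃ k : ℕ, (26 * k ≤ 25 * n ∧ (45 ≤ n → 21 * k ≤ 20 * n)) ∧
      ∃ c : Fin n → Fin n → ℕ,
        (∀ i j : Fin n, c i j = c j i) ∧
        (∀ i j : Fin n, i ≠ j → c i j < k) ∧
        (∀ i j a b : Fin n, i ≠ j → i ≠ a → i ≠ b → j ≠ a → j ≠ b → a ≠ b →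
          (openSegment ℝ (p i) (p j) ∩ openSegment ℝ (p a) (p b)).Nonempty →
          c i j ≠ c a b) := by
  rcases Nat.lt_or_ge n 27 with hn | hn
  · rcases Nat.eq_zero_or_pos n with h0 | h0
    · subst h0
      exact ⟨0, ⟨by omega, by omega⟩, fun _ _ => 0, fun i => i.elim0, fun i => i.elim0,
        fun i => i.elim0⟩
    · obtain ⟨c, h1, h2, h3⟩ := coloring_of_cover (X := fun _ => 0) (Y := fun _ => 0)
        ((univ : Finset (Fin n)).erase ⟨0, h0⟩) ∅ (by
          intro u w huw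
          by_cases hu : u = ⟨0, h0⟩
          · right; left
            simp only [mem_erase, mem_univ, and_true]
            intro hw; exact huw (hu.trans hw.symm)
          · left; simp [hu])
      have hk : ((univ : Finset (Fin n)).erase ⟨0, h0⟩).card +
          (∅ : Finset (Fin n × Fin n)).card = n - 1 := by
        rw [card_erase_of_mem (mem_univ _), card_univ, Fintype.card_fin, card_empty, add_zero]
      refine ⟨((univ : Finset (Fin n)).erase ⟨0, h0⟩).card +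
        (∅ : Finset (Fin n × Fin n)).card, ?_, c, h1, h2, ?_⟩
      · rw [hk]; constructor <;> omega
      · intro i j a b hij hia hib hja hjb hab _ hc
        obtain ⟨e, he, _⟩ := h3 i j a b hij hia hib hja hjb hab hc
        simp at he
  rcases Nat.lt_or_ge n 45 with hn2 | hn2
  · obtain ⟨k, hk, c, h1, h2, h3⟩ := colour p hinj hcol (m := 4) (s := 2) (d := 1) rfl (by omega)
      (by norm_num)
    exact ⟨k, ⟨by omega, by omega⟩, c, h1, h2, h3⟩
  · obtain ⟨m, s, d, hm, hmn, hc, hs⟩ := arith hn2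
    obtain ⟨k, hk, c, h1, h2, h3⟩ := colour p hinj hcol hm hmn hc
    exact ⟨k, ⟨by omega, by omega⟩, c, h1, h2, h3⟩

end Pool.Agent.Y784.PP
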