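import Pool.Agent.H365PP.Main
import Pool.Agent.H365PP.StripsN

set_option autoImplicit false
set_option linter.unusedSectionVars false

/-! Crossing-free edge colourings of complete geometric graphs: a large linear saving.  Three strips
instead of four, and the choice between the lower and the upper edges of the point set. -/

namespace Pool.Agent.Y784.PP

open Finset Pool.Agent.H365PP

theorem sum_shift (n : ℕ) : 2 * ∑ j ∈ range n, (j + 2) = n * (n + 3) := by
  induction n with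
  | zero => simp
  | succ n ih =>
    rw [Finset.sum_range_succ, mul_add, ih]
    ring

theorem low_sum {κ : Type*} [DecidableEq κ] (S : Finset κ) (f : κ → ℕ) (s b : ℕ)
    (h : ∀ k, s ≤ k → k < b → k + 2 ≤ (S.filter (fun e => f e = k)).card + s) :
    (b - s) * (b - s + 3) ≤ 2 * (S.filter (fun e => f e < b)).card := by
  have h1 : (S.filter (fun e => s ≤ f e ∧ f e < b)).card =
      ∑ k ∈ Ico s b, ((S.filter (fun e => s ≤ f e ∧ f e < b)).filter (fun e => f e = k)).card := by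
    apply card_eq_sum_card_fiberwise
    intro e he
    have he' := (mem_filter.1 (mem_coe.1 he)).2
    exact mem_coe.2 (mem_Ico.2 he')
  have h2 : ∀ k ∈ Ico s b, (k - s) + 2 ≤
      ((S.filter (fun e => s ≤ f e ∧ f e < b)).filter (fun e => f e = k)).card := by
    intro k hk
    rw [mem_Ico] at hk
    have e1 : (S.filter (fun e => s ≤ f e ∧ f e < b)).filter (fun e => f e = k) =
        S.filter (fun e => f e = k) := by
      ext e
      simp only [mem_filter]
      constructor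
      · rintro ⟨⟨h1, _⟩, h2⟩; exact ⟨h1, h2⟩
      · rintro ⟨h1, h2⟩; exact ⟨⟨h1, by omega⟩, h2⟩
    rw [e1]
    have := h k hk.1 hk.2
    omega
  have h3 := sum_le_sum h2
  rw [← h1, sum_Ico_eq_sum_range] at h3
  have h4 : ∑ i ∈ range (b - s), (s + i - s + 2) = ∑ i ∈ range (b - s), (i + 2) := by
    apply sum_congr rfl
    intro i _
    omega
  rw [h4] at h3
  have h5 := sum_shift (b - s)
  have h6 : (S.filter (fun e => s ≤ f e ∧ f e < b)).card ≤ (S.filter (fun e => f e < b)).card := by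
    apply card_le_card
    intro e he
    rw [mem_filter] at he ⊢
    exact ⟨he.1, he.2.2⟩
  linarith

/-- averaging over the lower and the upper edges -/
theorem good_two {κ : Type*} [DecidableEq κ] (S : Finset κ) (f g : κ → ℕ) (m s d : ℕ)
    (hm : m = s + d + 1) (hfg : ∀ e ∈ S, f e + g e + 2 = 2 * m) (hS : 2 * S.card ≤ m * (s + d))
    (hc : m * (s + d) < (d + 1) * (d + 4) + d * (d + 3)) :
    (∃ k < m, (S.filter (fun e => f e = k)).card + s ≤ k + 1) ∨
    (∃ k < m, (S.filter (fun e => g e = k)).card + s ≤ k + 1) := by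
  by_contra hcon
  push Not at hcon
  obtain ⟨hf, hg⟩ := hcon
  have h1 := low_sum S f s m (fun k _ hk => by have := hf k hk; omega)
  have h2 := low_sum S g s (m - 1) (fun k _ hk => by have := hg k (by omega); omega)
  have e1 : m - s = d + 1 := by omega
  have e2 : m - 1 - s = d := by omega
  rw [e1] at h1
  rw [e2] at h2
  have hdis : Disjoint (S.filter (fun e => f e < m)) (S.filter (fun e => g e < m - 1)) := by
    rw [disjoint_left]
    intro e he he'
    rw [mem_filter] at he he'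
    have := hfg e he.1
    omega
  have h3 : (S.filter (fun e => f e < m)).card + (S.filter (fun e => g e < m - 1)).card ≤ S.card := by
    rw [← card_union_of_disjoint hdis]
    exact card_le_card (union_subset (filter_subset _ _) (filter_subset _ _))
  have e3 : d + 1 + 3 = d + 4 := by ring
  rw [e3] at h1
  linarith

variable {ι : Type*} [DecidableEq ι] {X Y : ι → ℝ} {Q : Finset ι}

theorem fs_inc' (S : Finset ι) {m : ℕ} (hm : S.card = m + 1) :
    2 * ((S ×ˢ S).filter (fun e : ι × ι => X e.1 < X e.2)).card ≤ (m + 1) * m := by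
  have h1 : ((S ×ˢ S).filter (fun e : ι × ι => X e.2 < X e.1)).card
      = ((S ×ˢ S).filter (fun e : ι × ι => X e.1 < X e.2)).card := by
    refine Finset.card_bij (fun e _ => (e.2, e.1)) ?_ ?_ ?_
    · intro e he
      simp only [Finset.mem_filter, Finset.mem_product] at he ⊢
      exact ⟨⟨he.1.2, he.1.1⟩, he.2⟩
    · intro e _ e' _ h
      simp only [Prod.mk.injEq] at h
      exact Prod.ext h.2 h.1
    · intro e he
      simp only [Finset.mem_filter, Finset.mem_product] at he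
      refine ⟨(e.2, e.1), ?_, rfl⟩
      simp only [Finset.mem_filter, Finset.mem_product]
      exact ⟨⟨he.1.2, he.1.1⟩, he.2⟩
  have h2 : Disjoint ((S ×ˢ S).filter (fun e : ι × ι => X e.1 < X e.2))
      ((S ×ˢ S).filter (fun e : ι × ι => X e.2 < X e.1)) := by
    rw [Finset.disjoint_left]
    intro e he he'
    simp only [Finset.mem_filter] at he he'
    exact lt_asymm he.2 he'.2
  have h3 : (((S ×ˢ S).filter (fun e : ι × ι => X e.1 < X e.2)) ∪
      ((S ×ˢ S).filter (fun e : ι × ι => X e.2 < X e.1))).card ≤ S.offDiag.card := by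
    apply Finset.card_le_card
    intro e he
    rw [mem_union, mem_filter, mem_filter, mem_product] at he
    rw [mem_offDiag]
    rcases he with ⟨h, h'⟩ | ⟨h, h'⟩
    · refine ⟨h.1, h.2, ?_⟩
      intro h0
      rw [h0] at h'
      exact lt_irrefl _ h'
    · refine ⟨h.1, h.2, ?_⟩
      intro h0
      rw [h0] at h'
      exact lt_irrefl _ h'
  rw [Finset.card_union_of_disjoint h2, h1, offDiag_card, hm] at h3
  have e : (m + 1) * (m + 1) - (m + 1) = (m + 1) * m := by
    rw [mul_add, mul_one, Nat.add_sub_cancel]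
  rw [e] at h3
  linarith

theorem two_hp {A B C : Finset ι} {m : ℕ} (hm : A.card = m + 1)
    (hNT : ∀ s t : ℝ, ¬ (Hit X Y s t A ∧ Hit X Y s t B ∧ Hit X Y s t C)) :
    2 * ((hp X Y A B).card + (hp X Y A C).card) ≤ (m + 1) * m := by
  have hdis : Disjoint (hp X Y A B) (hp X Y A C) := by
    rw [disjoint_left]
    intro e he he'
    rw [mem_hp] at he he'
    exact hNT _ _ ⟨⟨⟨e.1, he.1, le_rfl⟩, ⟨e.1, he.1, le_rfl⟩⟩, he.2.2.2, he'.2.2.2⟩
  rw [← card_union_of_disjoint hdis]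
  refine le_trans (Nat.mul_le_mul_left 2 (card_le_card ?_)) (fs_inc' (X := X) A hm)
  intro e he
  rw [mem_union, mem_hp, mem_hp] at he
  rw [mem_filter, mem_product]
  rcases he with h | h
  · exact ⟨⟨h.1, h.2.1⟩, h.2.2.1⟩
  · exact ⟨⟨h.1, h.2.1⟩, h.2.2.1⟩

theorem three_sets {A B C : Finset ι} {m : ℕ} (hA : A.card = m + 1) (hB : B.card = m + 1)
    (hC : C.card = m + 1)
    (hNT : ∀ s t : ℝ, ¬ (Hit X Y s t A ∧ Hit X Y s t B ∧ Hit X Y s t C)) :
    2 * ((hp X Y A B).card + (hp X Y B A).card) ≤ (m + 1) * m ∨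
    2 * ((hp X Y A C).card + (hp X Y C A).card) ≤ (m + 1) * m ∨
    2 * ((hp X Y B C).card + (hp X Y C B).card) ≤ (m + 1) * m := by
  have h1 := two_hp (X := X) (Y := Y) hA hNT
  have h2 := two_hp (X := X) (Y := Y) (A := B) (B := A) (C := C) hB
    (fun s t h => hNT s t ⟨h.2.1, h.1, h.2.2⟩)
  have h3 := two_hp (X := X) (Y := Y) (A := C) (B := A) (C := B) hC
    (fun s t h => hNT s t ⟨h.2.1, h.2.2, h.1⟩)
  by_contra hcon
  push Not at hcon
  obtain ⟨g1, g2, g3⟩ := hcon
  linarith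

/-! ### reflection -/

theorem hh_neg (s : ℝ) (i : ι) : hh X (fun i => -Y i) (-s) i = -hh X Y s i := by
  unfold hh; ring

theorem sl_neg (i j : ι) : sl X (fun i => -Y i) i j = -sl X Y i j := by
  unfold sl; rw [← neg_div]; congr 1; ring

theorem Hit_neg (s t : ℝ) (S : Finset ι) :
    Hit X (fun i => -Y i) (-s) (-t) S ↔ Hit X Y s t S := by
  unfold Hit
  simp only [hh_neg, neg_le_neg_iff]
  exact And.comm

theorem hp_neg (S T : Finset ι) : hp X (fun i => -Y i) S T = hp X Y S T := by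
  ext e
  rw [mem_hp, mem_hp, sl_neg, hh_neg, Hit_neg]

theorem GP_neg (h : GP X Y Q) : GP X (fun i => -Y i) Q := by
  refine ⟨h.inj, ?_⟩
  intro i hi j hj l hl hij hli hlj h'
  rw [sl_neg, hh_neg, hh_neg] at h'
  exact h.gen i hi j hj l hl hij hli hlj (neg_injective h')

theorem rk_add (hG : GP X Y Q) {p q : ι} (hp : p ∈ Q) (hq : q ∈ Q) (hpq : X p < X q) :
    rk X Y Q (sl X Y p q) p + rk X (fun i => -Y i) Q (sl X (fun i => -Y i) p q) p + 2 = Q.card := by
  have hne : p ≠ q := by rintro rfl; exact lt_irrefl _ hpq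
  have e1 : rk X (fun i => -Y i) Q (sl X (fun i => -Y i) p q) p =
      (Q.filter (fun i => hh X Y (sl X Y p q) p < hh X Y (sl X Y p q) i)).card := by
    unfold rk
    congr 1
    ext i
    simp only [mem_filter, sl_neg, hh_neg, neg_lt_neg_iff]
  have e2 : (Q.filter (fun i => hh X Y (sl X Y p q) i = hh X Y (sl X Y p q) p)) = {p, q} := by
    ext i
    rw [mem_filter, mem_insert, mem_singleton]
    constructor
    · rintro ⟨hi, h⟩
      by_contra hc
      push Not at hc
      exact hG.gen p hp q hq i hi hne hc.1 hc.2 h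
    · rintro (rfl | rfl)
      · exact ⟨hp, rfl⟩
      · exact ⟨hq, hh_sl hpq.ne⟩
  have h2 : ({p, q} : Finset ι).card = 2 := card_pair hne
  have h3 := card_filter_add_card_filter_not (s := Q)
    (fun i => hh X Y (sl X Y p q) i < hh X Y (sl X Y p q) p)
  have h4 := card_filter_add_card_filter_not
    (s := Q.filter (fun i => ¬ hh X Y (sl X Y p q) i < hh X Y (sl X Y p q) p))
    (fun i => hh X Y (sl X Y p q) i = hh X Y (sl X Y p q) p)
  have e3 : (Q.filter (fun i => ¬ hh X Y (sl X Y p q) i < hh X Y (sl X Y p q) p)).filter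
      (fun i => hh X Y (sl X Y p q) i = hh X Y (sl X Y p q) p) = {p, q} := by
    rw [← e2]
    ext i
    simp only [mem_filter]
    constructor
    · rintro ⟨⟨h1, _⟩, h2⟩; exact ⟨h1, h2⟩
    · rintro ⟨h1, h2⟩; exact ⟨⟨h1, by rw [h2]; exact lt_irrefl _⟩, h2⟩
  have e4 : (Q.filter (fun i => ¬ hh X Y (sl X Y p q) i < hh X Y (sl X Y p q) p)).filter
      (fun i => ¬ hh X Y (sl X Y p q) i = hh X Y (sl X Y p q) p) =
      Q.filter (fun i => hh X Y (sl X Y p q) p < hh X Y (sl X Y p q) i) := by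
    ext i
    simp only [mem_filter, not_lt]
    constructor
    · rintro ⟨⟨h1, h2⟩, h3⟩; exact ⟨h1, lt_of_le_of_ne h2 (Ne.symm h3)⟩
    · rintro ⟨h1, h2⟩; exact ⟨⟨h1, h2.le⟩, h2.ne'⟩
  rw [e3, e4, h2] at h4
  rw [e1]
  unfold rk
  omega

/-! ### classes -/

theorem finish [Fintype ι] (hG : GP X Y (univ : Finset ι)) {A B : Finset ι}
    (hAB : ∀ a ∈ A, ∀ b ∈ B, X a < X b) {k s : ℕ} (hkA : k < A.card) (hkB : k < B.card)
    (hk : ((hp X Y A B ∪ hp X Y B A).filter
      (fun e => rk X Y (A ∪ B) (sl X Y e.1 e.2) e.1 = k)).card + s ≤ k + 1) :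
    ∃ (T : Finset ι) (E : Finset (ι × ι)), T.card + E.card + s ≤ Fintype.card ι ∧
      (∀ e ∈ E, X e.1 < X e.2) ∧
      ∀ u w : ι, u ≠ w → (u ∈ T ∨ w ∈ T ∨ ∃ e ∈ E, Cov X Y e.1 e.2 u w) := by
  obtain ⟨V, E, _, hVc, hE, hcov, hEc⟩ := coverage' (hG.mono (subset_univ _)) hAB hkA hkB
  refine ⟨univ \ V, E, ?_, hE, ?_⟩
  · have h1 : (univ \ V).card + V.card = Fintype.card ι := by
      rw [card_sdiff_add_card_eq_card (subset_univ _), card_univ]
    omega
  · intro u w huw
    by_cases hu : u ∈ V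
    · by_cases hw : w ∈ V
      · right; right; exact hcov u hu w hw huw
      · right; left; simp [hw]
    · left; simp [hu]

theorem pair_step [Fintype ι] (hG : GP X Y (univ : Finset ι)) {A B : Finset ι}
    (hAB : ∀ a ∈ A, ∀ b ∈ B, X a < X b) {m s d : ℕ} (hm : m = s + d + 1)
    (hA : A.card = m) (hB : B.card = m)
    (hhp : 2 * ((hp X Y A B).card + (hp X Y B A).card) ≤ m * (s + d))
    (hc : m * (s + d) < (d + 1) * (d + 4) + d * (d + 3)) :
    ∃ Y' : ι → ℝ, (Y' = Y ∨ Y' = fun i => -Y i) ∧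
    ∃ (T : Finset ι) (E : Finset (ι × ι)), T.card + E.card + s ≤ Fintype.card ι ∧
      (∀ e ∈ E, X e.1 < X e.2) ∧
      ∀ u w : ι, u ≠ w → (u ∈ T ∨ w ∈ T ∨ ∃ e ∈ E, Cov X Y' e.1 e.2 u w) := by
  have hdis : Disjoint A B := by
    rw [disjoint_left]
    intro a ha hb
    exact lt_irrefl _ (hAB a ha a hb)
  have hcard : (A ∪ B).card = 2 * m := by
    rw [card_union_of_disjoint hdis, hA, hB]; ring
  rcases good_two (hp X Y A B ∪ hp X Y B A)
      (fun e => rk X Y (A ∪ B) (sl X Y e.1 e.2) e.1)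
      (fun e => rk X (fun i => -Y i) (A ∪ B) (sl X (fun i => -Y i) e.1 e.2) e.1) m s d hm
      (by
        intro e he
        rw [← hcard]
        rw [mem_union, mem_hp, mem_hp] at he
        rcases he with h | h
        · exact rk_add (hG.mono (subset_univ _)) (mem_union_left _ h.1) (mem_union_left _ h.2.1)
            h.2.2.1
        · exact rk_add (hG.mono (subset_univ _)) (mem_union_right _ h.1) (mem_union_right _ h.2.1)
            h.2.2.1)
      (by
        have := card_union_le (hp X Y A B) (hp X Y B A)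
        linarith) hc with ⟨k, hk, hkc⟩ | ⟨k, hk, hkc⟩
  · exact ⟨Y, Or.inl rfl, finish hG hAB (by omega) (by omega) hkc⟩
  · refine ⟨fun i => -Y i, Or.inr rfl, finish (GP_neg hG) hAB (k := k) (by omega) (by omega) ?_⟩
    rw [hp_neg, hp_neg]
    exact hkc

theorem Hit_mono {s t : ℝ} {A B : Finset ι} (h : A ⊆ B) (hA : Hit X Y s t A) :
    Hit X Y s t B := by
  obtain ⟨⟨p, hp, h1⟩, ⟨q, hq, h2⟩⟩ := hA
  exact ⟨⟨p, h hp, h1⟩, ⟨q, h hq, h2⟩⟩

theorem classes3 [Fintype ι] (hG : GP X Y (univ : Finset ι)) {m s d : ℕ} (hm : m = s + d + 1)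
    (hn : 6 * m + 3 ≤ Fintype.card ι)
    (hc : m * (s + d) < (d + 1) * (d + 4) + d * (d + 3)) :
    ∃ Y' : ι → ℝ, (Y' = Y ∨ Y' = fun i => -Y i) ∧
    ∃ (T : Finset ι) (E : Finset (ι × ι)), T.card + E.card + s ≤ Fintype.card ι ∧
      (∀ e ∈ E, X e.1 < X e.2) ∧
      ∀ u w : ι, u ≠ w → (u ∈ T ∨ w ∈ T ∨ ∃ e ∈ E, Cov X Y' e.1 e.2 u w) := by
  obtain ⟨S, _, hSc, hSX⟩ := stripsN 3 (X := X) (univ : Finset ι) hG.inj (w := 2 * m + 1)
    (by rw [card_univ]; omega)
  have h01 := hSX 0 1 (by decide)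
  have h12 := hSX 1 2 (by decide)
  have h02 := hSX 0 2 (by decide)
  obtain ⟨A1, hA1, B1, hB1, C1, hC1, cA, cB, cC, hNT⟩ := refine3 (X := X) (Y := Y) (m := m)
    (hG.mono (subset_univ _)) h01 h12 (hSc 0).ge (hSc 1).ge (hSc 2).ge
    (fun α hα β hβ => surj_pairs' (hG.mono (subset_univ _)) h02 hα hβ)
  obtain ⟨A, hA, hAc⟩ := exists_subset_card_eq cA
  obtain ⟨B, hB, hBc⟩ := exists_subset_card_eq cB
  obtain ⟨C, hC, hCc⟩ := exists_subset_card_eq cC
  have hNT' : ∀ s t : ℝ, ¬ (Hit X Y s t A ∧ Hit X Y s t B ∧ Hit X Y s t C) := fun s t h =>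
    hNT s t ⟨Hit_mono hA h.1, Hit_mono hB h.2.1, Hit_mono hC h.2.2⟩
  have e : (s + d + 1) * (s + d) = m * (s + d) := by rw [hm]
  rcases three_sets (X := X) (Y := Y) (m := s + d) (by omega) (by omega) (by omega) hNT' with
    h | h | h
  · rw [e] at h
    exact pair_step hG (fun a ha b hb => h01 a (hA1 (hA ha)) b (hB1 (hB hb))) hm hAc hBc h hc
  · rw [e] at h
    exact pair_step hG (fun a ha b hb => h02 a (hA1 (hA ha)) b (hC1 (hC hb))) hm hAc hCc h hc
  · rw [e] at h
    exact pair_step hG (fun a ha b hb => h12 a (hB1 (hB ha)) b (hC1 (hC hb))) hm hBc hCc h hc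

theorem reflect {a b c d : ℝ × ℝ} (h : (openSegment ℝ a b ∩ openSegment ℝ c d).Nonempty) :
    (openSegment ℝ (a.1, -a.2) (b.1, -b.2) ∩ openSegment ℝ (c.1, -c.2) (d.1, -d.2)).Nonempty := by
  obtain ⟨z, ⟨α, β, hα, hβ, hαβ, hz⟩, ⟨α', β', hα', hβ', hαβ', hz'⟩⟩ := h
  have z1 := congrArg Prod.fst hz
  have z2 := congrArg Prod.snd hz
  have z1' := congrArg Prod.fst hz'
  have z2' := congrArg Prod.snd hz'
  simp only [Prod.fst_add, Prod.snd_add, Prod.smul_fst, Prod.smul_snd, smul_eq_mul] at z1 z2 z1' z2'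
  refine ⟨(z.1, -z.2), ⟨α, β, hα, hβ, hαβ, ?_⟩, ⟨α', β', hα', hβ', hαβ', ?_⟩⟩
  · ext
    · simp only [Prod.fst_add, Prod.smul_fst, smul_eq_mul]; exact z1
    · simp only [Prod.snd_add, Prod.smul_snd, smul_eq_mul]; linarith
  · ext
    · simp only [Prod.fst_add, Prod.smul_fst, smul_eq_mul]; exact z1'
    · simp only [Prod.snd_add, Prod.smul_snd, smul_eq_mul]; linarith

theorem colour {n : ℕ} (p : Fin n → ℝ × ℝ) (hinj : Function.Injective p)
    (hcol : ∀ i j l : Fin n, i ≠ j → j ≠ l → i ≠ l → ¬ Collinear ℝ ({p i, p j, p l} : Set (ℝ × ℝ)))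
    {m s d : ℕ} (hm : m = s + d + 1) (hn : 6 * m + 3 ≤ n)
    (hc : m * (s + d) < (d + 1) * (d + 4) + d * (d + 3)) :
    ∃ k : ℕ, k + s ≤ n ∧
      ∃ c : Fin n → Fin n → ℕ,
        (∀ i j : Fin n, c i j = c j i) ∧
        (∀ i j : Fin n, i ≠ j → c i j < k) ∧
        (∀ i j a b : Fin n, i ≠ j → i ≠ a → i ≠ b → j ≠ a → j ≠ b → a ≠ b →
          (openSegment ℝ (p i) (p j) ∩ openSegment ℝ (p a) (p b)).Nonempty →
          c i j ≠ c a b) := by
  obtain ⟨τ, hG⟩ := shear p hinj hcol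
  obtain ⟨Y', hY', T, E, hcard, hE, hcov⟩ := classes3 hG hm (by rw [Fintype.card_fin]; exact hn) hc
  obtain ⟨c, h1, h2, h3⟩ := coloring_of_cover T E hcov
  rw [Fintype.card_fin] at hcard
  refine ⟨T.card + E.card, hcard, c, h1, h2, ?_⟩
  intro i j a b hij hia hib hja hjb hab hne hc
  obtain ⟨e, he, hc1, hc2⟩ := h3 i j a b hij hia hib hja hjb hab hc
  rcases hY' with rfl | rfl
  · rcases cov_sep (hE e he) hc1 hc2 hia hib hja hjb with ⟨s, t, ⟨g1, g2, g3⟩, g4, g5⟩ | ⟨s, t, ⟨g1, g2, g3⟩, g4, g5⟩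
    · exact no_cross p τ s t i j a b g1 g2 g3 g4 g5 hne
    · exact no_cross p τ s t a b i j g1 g2 g3 g4 g5 (by rwa [Set.inter_comm])
  · have hX : (fun i => (p i).1 + τ * (p i).2) =
        (fun i => ((fun i => ((p i).1, -(p i).2)) i : ℝ × ℝ).1 +
          (-τ) * ((fun i => ((p i).1, -(p i).2)) i : ℝ × ℝ).2) := by
      ext i
      simp only
      ring
    have hE' := hE e he
    rw [hX] at hc1 hc2
    rcases cov_sep (by simp only; linarith) hc1 hc2 hia hib hja hjb with ⟨s, t, ⟨g1, g2, g3⟩, g4, g5⟩ | ⟨s, t, ⟨g1, g2, g3⟩, g4, g5⟩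
    · exact no_cross (fun i => ((p i).1, -(p i).2)) (-τ) s t i j a b g1 g2 g3 g4 g5 (reflect hne)
    · exact no_cross (fun i => ((p i).1, -(p i).2)) (-τ) s t a b i j g1 g2 g3 g4 g5
        (reflect (by rwa [Set.inter_comm]))

end Pool.Agent.Y784.PP
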